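import Pool.Agent.TH612.GS.Stm3

set_option autoImplicit false

/-!
The values of zeta in the recipe for separated shifts.
-/

namespace Pool.Agent.TH440.GF

open Complex Filter Topology MeasureTheory Set
open Pool.Agent.TH612.CF Pool.Agent.TH612.GS

noncomputable section

/-- the values on the one line for the fixed block -/
def cA {k : ℕ} (α : Fin k → ℝ) : ℝ :=
  ∑ j, ∑ l, ‖riemannZeta (1 + I * ((α j - α l : ℝ) : ℂ))‖

lemma cA_nonneg {k : ℕ} (α : Fin k → ℝ) : 0 ≤ cA α :=
  Finset.sum_nonneg fun _ _ => Finset.sum_nonneg fun _ _ => norm_nonneg _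

lemma le_cA {k : ℕ} (α : Fin k → ℝ) (j l : Fin k) :
    ‖riemannZeta (1 + I * ((α j - α l : ℝ) : ℂ))‖ ≤ cA α := by
  unfold cA
  calc ‖riemannZeta (1 + I * ((α j - α l : ℝ) : ℂ))‖
      ≤ ∑ l, ‖riemannZeta (1 + I * ((α j - α l : ℝ) : ℂ))‖ :=
        Finset.single_le_sum (f := fun l => ‖riemannZeta (1 + I * ((α j - α l : ℝ) : ℂ))‖)
          (fun _ _ => norm_nonneg _) (Finset.mem_univ l)
    _ ≤ _ := Finset.single_le_sum
          (f := fun j => ∑ l, ‖riemannZeta (1 + I * ((α j - α l : ℝ) : ℂ))‖)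
          (fun _ _ => Finset.sum_nonneg fun _ _ => norm_nonneg _) (Finset.mem_univ j)

lemma pair_bd {k : ℕ} (α : Fin k → ℝ) {C T A : ℝ} (hT : 3 ≤ T) (hC : 0 < C)
    (hA : ∀ j, |α j| ≤ A) (hAT : A ≤ T)
    (h1 : ∀ v : ℝ, 1 ≤ |v| → |v| ≤ 2 * T → ‖riemannZeta (1 + I * v)‖ ≤ C * Real.log (2 * T))
    {β : Fin k → ℝ} (hβ : β ∈ SepA α T) (p q : Fin k ⊕ Fin k) (hpq : p ≠ q) :
    ‖riemannZeta (1 + I * ((gab α β p - gab α β q : ℝ) : ℂ))‖ ≤
      (cA α + 2 * C) * Real.log T := by
  have hl1 : 1 ≤ Real.log T := by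
    rw [Real.le_log_iff_exp_le (by linarith)]
    exact (Real.exp_one_lt_d9.le.trans (by norm_num)).trans hT
  have hl2 : Real.log (2 * T) ≤ 2 * Real.log T := by
    rw [Real.log_mul (by norm_num) (by linarith)]
    have : Real.log 2 ≤ Real.log T := Real.log_le_log (by norm_num) (by linarith)
    linarith
  have hc := cA_nonneg α
  have hbig : ∀ v : ℝ, 1 ≤ |v| → |v| ≤ 2 * T →
      ‖riemannZeta (1 + I * v)‖ ≤ (cA α + 2 * C) * Real.log T := by
    intro v hv hv2
    refine (h1 v hv hv2).trans ?_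
    have e1 : C * Real.log (2 * T) ≤ C * (2 * Real.log T) := mul_le_mul_of_nonneg_left hl2 hC.le
    have e2 : 0 ≤ cA α * Real.log T := mul_nonneg hc (by linarith)
    nlinarith
  have hroot : 1 ≤ T ^ (1 / 2 : ℝ) := Real.one_le_rpow (by linarith) (by norm_num)
  have hb : ∀ l, |β l| ≤ T := fun l => by
    rw [abs_of_nonneg (hβ.1 l).1]; exact (hβ.1 l).2
  rcases p with j | j <;> rcases q with l | l
  · refine (le_cA α j l).trans ?_
    have e1 : cA α ≤ cA α * Real.log T := le_mul_of_one_le_right hc hl1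
    have e2 : 0 ≤ C * Real.log T := mul_nonneg hC.le (by linarith)
    nlinarith
  · refine hbig _ ?_ ?_
    · show 1 ≤ |α j - β l|
      rw [abs_sub_comm]
      exact hroot.trans (hβ.2.2 j l)
    · show |α j - β l| ≤ 2 * T
      have := abs_sub (α j) (β l)
      have := hA j
      have := hb l
      linarith
  · refine hbig _ ?_ ?_
    · show 1 ≤ |β j - α l|
      exact hroot.trans (hβ.2.2 l j)
    · show |β j - α l| ≤ 2 * T
      have := abs_sub (β j) (α l)
      have := hA l
      have := hb j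
      linarith
  · refine hbig _ ?_ ?_
    · show 1 ≤ |β j - β l|
      refine hroot.trans (hβ.2.1 j l ?_)
      intro h
      exact hpq (by rw [h])
    · show |β j - β l| ≤ 2 * T
      have := abs_sub (β j) (β l)
      have := hb j
      have := hb l
      linarith

theorem t_ZA (hONE : S_ONE) : S_ZA := by
  intro k α _
  obtain ⟨C, T₀, hC, hT₀, h⟩ := hONE
  set A : ℝ := ∑ j, |α j| with hAdef
  have hA : ∀ j, |α j| ≤ A := fun j =>
    Finset.single_le_sum (f := fun j => |α j|) (fun _ _ => abs_nonneg _) (Finset.mem_univ j)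
  have hc := cA_nonneg α
  have hBF : 0 ≤ BF k (1 / 8) := (Real.exp_pos _).le
  refine ⟨BF k (1 / 8) * (cA α + 2 * C) ^ (k ^ 2) + 1, max T₀ A, k ^ 2, by positivity,
    hT₀.trans (le_max_left _ _), ?_⟩
  intro T hT β hβ π
  have hT1 : T₀ ≤ T := (le_max_left _ _).trans hT
  have hAT : A ≤ T := (le_max_right _ _).trans hT
  have hT3 : 3 ≤ T := hT₀.trans hT1
  have h1 : ∀ v : ℝ, 1 ≤ |v| → |v| ≤ 2 * T →
      ‖riemannZeta (1 + I * v)‖ ≤ C * Real.log (2 * T) := by
    refine (h (2 * T) 1 (by linarith) le_rfl ?_).1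
    rw [Nat.cast_one]
    exact Real.one_le_rpow (by linarith) (by norm_num)
  have hlog : 0 ≤ Real.log T := Real.log_nonneg (by linarith)
  set D : ℝ := (cA α + 2 * C) * Real.log T with hD
  have hD0 : 0 ≤ D := by positivity
  have h2 : ∀ j l : Fin k, ‖riemannZeta (1 + I * (gab α β (π (Sum.inl j)) : ℂ) -
      I * (gab α β (π (Sum.inr l)) : ℂ))‖ ≤ D := by
    intro j l
    have hne : π (Sum.inl j) ≠ π (Sum.inr l) := fun h => by
      have := π.injective h
      simp at this
    have e : (1 + I * (gab α β (π (Sum.inl j)) : ℂ) - I * (gab α β (π (Sum.inr l)) : ℂ) : ℂ) =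
        1 + I * ((gab α β (π (Sum.inl j)) - gab α β (π (Sum.inr l)) : ℝ) : ℂ) := by
      push_cast; ring
    rw [e]
    exact pair_bd α hT3 hC hA hAT h1 hβ _ _ hne
  have h3 : ‖zab (fun j => (gab α β (π (Sum.inl j)) : ℂ))
      (fun j => (gab α β (π (Sum.inr j)) : ℂ))‖ ≤ BF k (1 / 8) * D ^ (k ^ 2) := by
    unfold zab
    rw [norm_mul, norm_prod]
    refine mul_le_mul ?_ ?_ (by positivity) hBF
    · refine FH_le (by norm_num) fun j => ?_
      rw [Complex.ofReal_im, Complex.ofReal_im, abs_zero]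
      norm_num
    · calc ∏ j, ‖∏ l, riemannZeta (1 + I * (gab α β (π (Sum.inl j)) : ℂ) -
            I * (gab α β (π (Sum.inr l)) : ℂ))‖
          ≤ ∏ _j : Fin k, D ^ k := by
            refine Finset.prod_le_prod (fun _ _ => norm_nonneg _) fun j _ => ?_
            rw [norm_prod]
            refine (Finset.prod_le_prod (fun _ _ => norm_nonneg _) fun l _ => h2 j l).trans ?_
            simp
        _ = D ^ (k ^ 2) := by
            rw [Finset.prod_const, Finset.card_univ, Fintype.card_fin, ← pow_mul]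
            congr 1; ring
  refine h3.trans ?_
  rw [hD, mul_pow, ← mul_assoc]
  have : 0 ≤ Real.log T ^ (k ^ 2) := by positivity
  nlinarith

end

end Pool.Agent.TH440.GF
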